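import Mathlib

set_option autoImplicit false

/-!
# MP_652ce8_co: the sum of `n` identical dice is divisible by `n` with probability at least `2^(1-n)`

For a prime `n` the tosses are grouped in pairs of faces with different residues, and the theorem of
Cauchy and Davenport is used; for a composite `n = k h` the `n` dice are divided into `h` blocks of
`k` dice.
-/

namespace Pool.Agent.Results.MP_652ce8_co.DiceSum

open Finset
open scoped Pointwise

/-- There is a permutation `π` of `F` such that either `f (π u) ≠ f u` for all `u`, or there is a value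
`a` such that for every `u` one of `f u`, `f (π u)` is `a`. -/
theorem exists_perm {F α : Type*} [Fintype F] [DecidableEq F] [DecidableEq α] (f : F → α) :
    ∃ π : Equiv.Perm F, (∀ u, f (π u) ≠ f u) ∨ ∃ a, ∀ u, f u = a ∨ f (π u) = a := by
  classical
  obtain ⟨π, hπ⟩ := Finite.exists_min
    (fun π : Equiv.Perm F => (univ.filter (fun u => f (π u) = f u)).card)
  refine ⟨π, ?_⟩
  by_cases h : ∀ u, f (π u) ≠ f u
  · exact Or.inl h
  · right
    push Not at h
    obtain ⟨u0, h0⟩ := h
    refine ⟨f u0, fun v => ?_⟩
    by_contra hv
    push Not at hv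
    obtain ⟨hv1, hv2⟩ := hv
    have hne : u0 ≠ v := fun h => hv1 (by rw [h])
    have hlt : (univ.filter (fun u => f ((π * Equiv.swap u0 v) u) = f u)).card <
        (univ.filter (fun u => f (π u) = f u)).card := by
      apply Finset.card_lt_card
      rw [Finset.ssubset_iff_of_subset]
      · refine ⟨u0, by simp [h0], ?_⟩
        rw [mem_filter]
        rintro ⟨-, h⟩
        rw [Equiv.Perm.mul_apply, Equiv.swap_apply_left] at h
        exact hv2 h
      · intro u hu
        rw [mem_filter] at hu ⊢
        refine ⟨mem_univ _, ?_⟩
        replace hu := hu.2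
        rw [Equiv.Perm.mul_apply] at hu
        by_cases c1 : u = u0
        · rw [c1]; exact h0
        · by_cases c2 : u = v
          · exfalso
            rw [c2, Equiv.swap_apply_right, h0] at hu
            exact hv1 hu.symm
          · rwa [Equiv.swap_apply_of_ne_of_ne c1 c2] at hu
    exact absurd (hπ (π * Equiv.swap u0 v)) (not_le.2 hlt)

/-- the sums of one element of each of the pairs `{a i, b i}`, `i ∈ s` -/
noncomputable def sums {p : ℕ} {ι : Type*} [Fintype ι] [DecidableEq ι] (a b : ι → ZMod p)
    (s : Finset ι) : Finset (ZMod p) :=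
  (univ : Finset (ι → Bool)).image (fun ε => ∑ i ∈ s, if ε i then b i else a i)

theorem card_sums {p : ℕ} (hp : p.Prime) {ι : Type*} [Fintype ι] [DecidableEq ι]
    (a b : ι → ZMod p) (s : Finset ι) (h : ∀ i ∈ s, a i ≠ b i) :
    min p (s.card + 1) ≤ (sums a b s).card := by
  classical
  induction s using Finset.induction_on with
  | empty =>
    refine (min_le_right _ _).trans ?_
    simp only [card_empty, zero_add, Nat.one_le_iff_ne_zero, ne_eq, card_eq_zero]
    rw [← ne_eq, ← Finset.nonempty_iff_ne_empty]
    exact Finset.image_nonempty.2 univ_nonempty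
  | insert i s hi ih =>
    have ih' := ih (fun j hj => h j (mem_insert_of_mem hj))
    have h1 := ZMod.cauchy_davenport hp (s := sums a b s) (t := {a i, b i})
      (Finset.image_nonempty.2 univ_nonempty) ⟨a i, by simp⟩
    rw [card_pair (h i (mem_insert_self _ _))] at h1
    have h2 : sums a b s + ({a i, b i} : Finset (ZMod p)) ⊆ sums a b (insert i s) := by
      intro x hx
      rw [Finset.mem_add] at hx
      obtain ⟨y, hy, z, hz, rfl⟩ := hx
      simp only [sums, mem_image, mem_univ, true_and] at hy
      obtain ⟨ε, rfl⟩ := hy
      simp only [sums, mem_image, mem_univ, true_and]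
      have key : ∀ c : Bool, ∑ j ∈ insert i s, (if (Function.update ε i c) j then b j else a j) =
          (∑ j ∈ s, if ε j then b j else a j) + (if c then b i else a i) := by
        intro c
        rw [sum_insert hi, Function.update_self, add_comm]
        congr 1
        refine sum_congr rfl fun j hj => ?_
        have hne : j ≠ i := fun h' => hi (h' ▸ hj)
        rw [Function.update_of_ne hne]
      rw [mem_insert, mem_singleton] at hz
      rcases hz with rfl | rfl
      · exact ⟨Function.update ε i false, by rw [key]; simp⟩
      · exact ⟨Function.update ε i true, by rw [key]; simp⟩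
    have h3 := Finset.card_le_card h2
    rw [card_insert_of_notMem hi]
    omega

/-- The prime case, with the residues of the labels. -/
theorem prime_case {p : ℕ} (hp : p.Prime) {F : Type*} [Fintype F] [DecidableEq F]
    (f : F → ZMod p) :
    Fintype.card F ^ p ≤ 2 ^ (p - 1) *
      (univ.filter (fun x : Fin p → F => ∑ i, f (x i) = 0)).card := by
  classical
  have : NeZero p := ⟨hp.ne_zero⟩
  obtain ⟨π, hπ⟩ := exists_perm f
  -- the choice `ε` of elements of the pairs `{u i, π (u i)}`
  have key : ∀ u : Fin p → F,
      2 ≤ (univ.filter (fun ε : Fin p → Bool => ∑ i, f (if ε i then π (u i) else u i) = 0)).card := by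
    intro u
    have hif : ∀ (ε : Fin p → Bool) (i : Fin p), f (if ε i then π (u i) else u i) =
        if ε i then f (π (u i)) else f (u i) := fun ε i => by split <;> rfl
    simp only [hif]
    by_cases hall : ∀ i, f (u i) ≠ f (π (u i))
    · obtain ⟨i0⟩ : Nonempty (Fin p) := ⟨0⟩
      have h1 := card_sums hp (fun i => f (u i)) (fun i => f (π (u i))) (univ.erase i0)
        (fun i _ => hall i)
      rw [card_erase_of_mem (mem_univ _), card_univ, Fintype.card_fin,
        Nat.sub_add_cancel hp.one_lt.le, min_self] at h1
      have h2 : sums (fun i => f (u i)) (fun i => f (π (u i))) (univ.erase i0) = univ := by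
        rw [← Finset.card_eq_iff_eq_univ, ZMod.card]
        exact le_antisymm ((card_le_univ _).trans (ZMod.card p).le) h1
      have h3 : ∀ c : Bool, ∃ ε : Fin p → Bool, ε i0 = c ∧
          ∑ i, (if ε i then f (π (u i)) else f (u i)) = 0 := by
        intro c
        have h4 : -(if c then f (π (u i0)) else f (u i0)) ∈
            sums (fun i => f (u i)) (fun i => f (π (u i))) (univ.erase i0) := by
          rw [h2]; exact mem_univ _
        simp only [sums, mem_image, mem_univ, true_and] at h4
        obtain ⟨ε, hε⟩ := h4
        refine ⟨Function.update ε i0 c, Function.update_self _ _ _, ?_⟩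
        rw [← Finset.add_sum_erase univ _ (mem_univ i0), Function.update_self]
        have h5 : ∑ x ∈ univ.erase i0, (if (Function.update ε i0 c) x then f (π (u x)) else f (u x))
            = ∑ x ∈ univ.erase i0, (if ε x then f (π (u x)) else f (u x)) := by
          refine sum_congr rfl fun j hj => ?_
          rw [Function.update_of_ne (ne_of_mem_erase hj)]
        rw [h5, hε]
        ring
      obtain ⟨ε1, e1, e2⟩ := h3 false
      obtain ⟨ε2, e3, e4⟩ := h3 true
      rw [← Finset.card_pair (a := ε1) (b := ε2) (fun h => by rw [h, e3] at e1; simp at e1)]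
      apply card_le_card
      intro ε hε
      rw [mem_insert, mem_singleton] at hε
      rcases hε with rfl | rfl
      · simp [e2]
      · simp [e4]
    · push Not at hall
      obtain ⟨i, hi⟩ := hall
      rcases hπ with hπ | ⟨a, ha⟩
      · exact absurd hi.symm (hπ (u i))
      · set ε : Fin p → Bool := fun j => decide (f (u j) ≠ a) with hε
        have h1 : ∀ j, (if ε j then f (π (u j)) else f (u j)) = a := by
          intro j
          by_cases c : f (u j) = a
          · simp [hε, c]
          · have := (ha (u j)).resolve_left c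
            simp [hε, c, this]
        have h2 : ∀ j, (if (Function.update ε i (!ε i)) j then f (π (u j)) else f (u j)) = a := by
          intro j
          by_cases c : j = i
          · subst c
            rw [Function.update_self]
            have := h1 j
            cases hj : ε j
            · rw [hj] at this
              simp only [Bool.not_false, if_true]
              simp only [Bool.false_eq_true, if_false] at this
              rw [← hi, this]
            · rw [hj] at this
              simp only [Bool.not_true, Bool.false_eq_true, if_false]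
              simp only [if_true] at this
              rw [hi, this]
          · rw [Function.update_of_ne c]
            exact h1 j
        have h3 : ∑ _j : Fin p, a = 0 := by
          rw [sum_const, card_univ, Fintype.card_fin, nsmul_eq_mul, CharP.cast_eq_zero, zero_mul]
        rw [← Finset.card_pair (a := ε) (b := Function.update ε i (!ε i)) (fun h => by
          have := congrFun h i
          rw [Function.update_self] at this
          cases hj : ε i <;> rw [hj] at this <;> simp at this)]
        apply card_le_card
        intro ε' hε'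
        rw [mem_insert, mem_singleton] at hε'
        rcases hε' with rfl | rfl
        · simp only [mem_filter, mem_univ, true_and]
          rw [sum_congr rfl fun j _ => h1 j, h3]
        · simp only [mem_filter, mem_univ, true_and]
          rw [sum_congr rfl fun j _ => h2 j, h3]
  -- for every `ε` the map `u ↦ x` is a bijection
  have hbij : ∀ ε : Fin p → Bool,
      (univ.filter (fun u : Fin p → F => ∑ i, f (if ε i then π (u i) else u i) = 0)).card =
      (univ.filter (fun x : Fin p → F => ∑ i, f (x i) = 0)).card := by
    intro ε
    let e : (Fin p → F) ≃ (Fin p → F) :=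
      Equiv.piCongrRight (fun i => if ε i then π else Equiv.refl F)
    have he : ∀ (u : Fin p → F) (i : Fin p), e u i = if ε i then π (u i) else u i := by
      intro u i
      simp only [e, Equiv.piCongrRight_apply, Pi.map_apply]
      split <;> rfl
    refine Finset.card_bij' (fun u _ => e u) (fun x _ => e.symm x) ?_ ?_ ?_ ?_
    · intro u hu
      simp only [mem_filter, mem_univ, true_and] at hu ⊢
      simpa only [he] using hu
    · intro x hx
      simp only [mem_filter, mem_univ, true_and] at hx ⊢
      have : ∀ i, (if ε i then π (e.symm x i) else e.symm x i) = x i := by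
        intro i
        rw [← he, Equiv.apply_symm_apply]
      simpa only [this] using hx
    · intro u _
      simp
    · intro x _
      simp
  have hsum : ∑ ε : Fin p → Bool,
      (univ.filter (fun u : Fin p → F => ∑ i, f (if ε i then π (u i) else u i) = 0)).card =
      ∑ u : Fin p → F,
      (univ.filter (fun ε : Fin p → Bool => ∑ i, f (if ε i then π (u i) else u i) = 0)).card := by
    simp only [Finset.card_filter]
    exact Finset.sum_comm
  rw [sum_congr rfl fun ε _ => hbij ε, sum_const, card_univ, Fintype.card_pi_const,
    Fintype.card_bool, smul_eq_mul] at hsum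
  have h4 : (Fintype.card F ^ p) * 2 ≤ 2 ^ p *
      (univ.filter (fun x : Fin p → F => ∑ i, f (x i) = 0)).card := by
    rw [hsum]
    calc (Fintype.card F ^ p) * 2 = ∑ _u : Fin p → F, 2 := by
          rw [sum_const, card_univ, Fintype.card_pi_const, smul_eq_mul]
      _ ≤ _ := sum_le_sum fun u _ => key u
  have h5 : 2 ^ p = 2 ^ (p - 1) * 2 := by
    rw [← pow_succ, Nat.sub_add_cancel hp.one_lt.le]
  rw [h5] at h4
  have h6 : (Fintype.card F ^ p) * 2 ≤ (2 ^ (p - 1) *
      (univ.filter (fun x : Fin p → F => ∑ i, f (x i) = 0)).card) * 2 := by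
    calc _ ≤ _ := h4
      _ = _ := by ring
  exact Nat.le_of_mul_le_mul_right h6 (by norm_num)

theorem prime_case' {p : ℕ} (hp : p.Prime) {F : Type*} [Fintype F] (f : F → ℤ) :
    Fintype.card F ^ p ≤ 2 ^ (p - 1) *
      (univ.filter (fun x : Fin p → F => (p : ℤ) ∣ ∑ i, f (x i))).card := by
  classical
  have h := prime_case hp (fun u : F => ((f u : ℤ) : ZMod p))
  convert h using 3
  ext x
  simp only [mem_filter, mem_univ, true_and]
  rw [← ZMod.intCast_zmod_eq_zero_iff_dvd]
  push_cast
  rfl

/-- the composite case: `h` blocks of `k` dice -/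
theorem mul_case {k h : ℕ} (hk : 0 < k) (hh : 0 < h)
    (Pk : ∀ (F : Type) [Fintype F] [Nonempty F] (f : F → ℤ), Fintype.card F ^ k ≤ 2 ^ (k - 1) *
      (univ.filter (fun x : Fin k → F => (k : ℤ) ∣ ∑ i, f (x i))).card)
    (Ph : ∀ (F : Type) [Fintype F] [Nonempty F] (f : F → ℤ), Fintype.card F ^ h ≤ 2 ^ (h - 1) *
      (univ.filter (fun x : Fin h → F => (h : ℤ) ∣ ∑ i, f (x i))).card)
    (F : Type) [Fintype F] [Nonempty F] (f : F → ℤ) :
    Fintype.card F ^ (k * h) ≤ 2 ^ (k * h - 1) *
      (univ.filter (fun x : Fin (k * h) → F => ((k * h : ℕ) : ℤ) ∣ ∑ i, f (x i))).card := by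
  classical
  have h1 := Pk F f
  set F' := {y : Fin k → F // (k : ℤ) ∣ ∑ i, f (y i)} with hF'
  have hcard : Fintype.card F' =
      (univ.filter (fun x : Fin k → F => (k : ℤ) ∣ ∑ i, f (x i))).card := Fintype.card_subtype _
  rw [← hcard] at h1
  have : Nonempty F' := by
    rw [← Fintype.card_pos_iff]
    by_contra h0
    have h0' : Fintype.card F' = 0 := by omega
    rw [h0', mul_zero] at h1
    have : 0 < Fintype.card F ^ k := pow_pos Fintype.card_pos _
    omega
  have h2 := Ph F' (fun y => (∑ i, f (y.1 i)) / k)
  have h3 : (univ.filter (fun x : Fin h → F' =>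
      (h : ℤ) ∣ ∑ j, (∑ i, f ((x j).1 i)) / (k : ℤ))).card ≤
      (univ.filter (fun x : Fin (k * h) → F => ((k * h : ℕ) : ℤ) ∣ ∑ i, f (x i))).card := by
    refine Finset.card_le_card_of_injOn
      (fun z => fun t => (z (finProdFinEquiv.symm t).2).1 (finProdFinEquiv.symm t).1) ?_ ?_
    · intro z hz
      simp only [coe_filter, mem_univ, true_and, Set.mem_ofPred_eq] at hz ⊢
      have e1 : ∑ t : Fin (k * h), f ((z (finProdFinEquiv.symm t).2).1 (finProdFinEquiv.symm t).1) =
          ∑ q : Fin k × Fin h, f ((z q.2).1 q.1) :=
        Equiv.sum_comp finProdFinEquiv.symm (fun q : Fin k × Fin h => f ((z q.2).1 q.1))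
      rw [e1, Fintype.sum_prod_type_right]
      have e2 : ∀ j : Fin h, ∑ i, f ((z j).1 i) = (k : ℤ) * ((∑ i, f ((z j).1 i)) / (k : ℤ)) :=
        fun j => (Int.mul_ediv_cancel' (z j).2).symm
      rw [sum_congr rfl fun j _ => e2 j, ← Finset.mul_sum]
      push_cast
      exact mul_dvd_mul_left _ hz
    · intro z _ z' _ hzz
      funext j
      apply Subtype.ext
      funext i
      have := congrFun hzz (finProdFinEquiv (i, j))
      simpa using this
  have h4 : Fintype.card F ^ (k * h) ≤ (2 ^ (k - 1) * Fintype.card F') ^ h := by
    rw [pow_mul]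
    exact Nat.pow_le_pow_left h1 _
  have h5 : (2 ^ (k - 1) * Fintype.card F') ^ h ≤ 2 ^ ((k - 1) * h) * (2 ^ (h - 1) *
      (univ.filter (fun x : Fin (k * h) → F => ((k * h : ℕ) : ℤ) ∣ ∑ i, f (x i))).card) := by
    rw [mul_pow, ← pow_mul]
    exact Nat.mul_le_mul_left _ (h2.trans (Nat.mul_le_mul_left _ h3))
  have h6 : 2 ^ (k * h - 1) = 2 ^ ((k - 1) * h) * 2 ^ (h - 1) := by
    rw [← pow_add]
    congr 1
    obtain ⟨k, rfl⟩ : ∃ k', k = k' + 1 := ⟨k - 1, by omega⟩
    rw [Nat.add_sub_cancel]
    have : (k + 1) * h = k * h + h := by ring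
    omega
  calc _ ≤ _ := h4
    _ ≤ _ := h5
    _ = _ := by rw [h6]; ring

theorem count (n : ℕ) : ∀ (F : Type) [Fintype F] [Nonempty F] (f : F → ℤ),
    Fintype.card F ^ n ≤ 2 ^ (n - 1) *
      (univ.filter (fun x : Fin n → F => (n : ℤ) ∣ ∑ i, f (x i))).card := by
  induction n using induction_on_primes with
  | zero =>
    intro F _ _ f
    simp
  | one =>
    intro F _ _ f
    simp
  | prime_mul p a hp ih =>
    rcases Nat.eq_zero_or_pos a with rfl | ha
    · simp
    · exact mul_case hp.pos ha (fun F _ _ f => prime_case' hp f) ih

/-- **Divisibility of the sum of identical dice.** For every `n ≥ 1` and every die (a finite nonempty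
set `F` of faces with integer labels `f`), when `n` copies are tossed independently, the probability
that `n` divides the sum of the `n` labels is at least `1 / 2 ^ (n - 1)`. The probability is the number
of the outcomes `x ∈ F ^ n` with `n ∣ ∑ f (x i)` divided by the number `|F| ^ n` of all outcomes. -/
theorem result (n : ℕ) (_hn : 1 ≤ n) (F : Type) [Fintype F] [Nonempty F] (f : F → ℤ) :
    (1 : ℝ) / 2 ^ (n - 1) ≤
      ({x : Fin n → F | (n : ℤ) ∣ ∑ i, f (x i)}.ncard : ℝ) / (Fintype.card F : ℝ) ^ n := by
  classical
  have h := count n F f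
  have h1 : {x : Fin n → F | (n : ℤ) ∣ ∑ i, f (x i)}.ncard =
      (univ.filter (fun x : Fin n → F => (n : ℤ) ∣ ∑ i, f (x i))).card := by
    rw [← Set.ncard_coe_finset]
    congr 1
    ext x
    simp
  rw [h1]
  have h2 : (0 : ℝ) < (Fintype.card F : ℝ) ^ n := by
    have : (0 : ℝ) < (Fintype.card F : ℝ) := by exact_mod_cast Fintype.card_pos
    positivity
  rw [div_le_div_iff₀ (by positivity) h2, one_mul, mul_comm]
  exact_mod_cast h

end Pool.Agent.Results.MP_652ce8_co.DiceSum
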